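import Pool.Agent.H73.FF.Cor
import Pool.Agent.H63.MA.GKus

/-!
# [H73 FF TVN] (F) of MP_b39724 (all classes, stage 2): a trivial symbol is a norm (complete)

`tv_norm`: if `cu c d` is a coboundary of finite level on `Gal(Ω/K)` and `L = K(c^(1/p))` has degree `p`, then `d` is a norm from `L`.
PROOF. `l (σ τ) = l σ + l τ + kk c σ kk d τ`; `l` is a character on `Gal(Ω/L)`, with Kummer root `B` (`kum_sub`), `δ ^ p = d`, `kk c s = 1`: `w = (s B) δ / B` is in `L` and its norm is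
`ζ ^ (l (s ^ p)) ζ ^ (C(p,2) kk d s) d = d`.
-/

set_option autoImplicit false

open scoped NumberField
open IsDedekindDomain

noncomputable section

namespace H73.FF

open H63.MA H57.BRA

variable {K : Type} [Field K] [NumberField K] {L : Type} [Field L] [NumberField L] [Algebra K L]
  {Ω : Type} [Field Ω] [Algebra K Ω] [Algebra L Ω] [IsScalarTower K L Ω] [IsAlgClosure K Ω]
  {p : ℕ} {ζ : K}

/-- an element with `kk c s = 1` -/
theorem kk_one_ex (Ω : Type) [Field Ω] [Algebra K Ω] [IsAlgClosure K Ω] (hp : p.Prime) (hζ : IsPrimitiveRoot ζ p)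
    {c : Kˣ} (hc : ¬ IsPow p c) : ∃ s : Gal(Ω/K), kk p ζ c s = 1 := by
  have : Fact p.Prime := ⟨hp⟩
  have h1 : ¬ ∀ σ : Gal(Ω/K), kk p ζ c σ = 0 := fun h => hc ((kk_eq_zero_iff hp hζ c).1 h)
  push Not at h1
  obtain ⟨σ, hσ⟩ := h1
  refine ⟨σ ^ ((kk p ζ c σ)⁻¹).val, ?_⟩
  have hpow : ∀ k : ℕ, kk p ζ c (σ ^ k) = k * kk p ζ c σ := by
    intro k
    induction k with
    | zero => rw [pow_zero, kk_one, Nat.cast_zero, zero_mul]
    | succ k ih => rw [pow_succ, kk_mul, ih, Nat.cast_succ]; ring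
  rw [hpow, ZMod.natCast_zmod_val]
  exact inv_mul_cancel₀ hσ

theorem tv_norm (hp : p.Prime) (hζ : IsPrimitiveRoot ζ p) {c : Kˣ} (H : Kum p K ζ c L) (d : Kˣ)
    (h : Tv (fun σ τ : Gal(Ω/K) => cu p ζ c d σ τ)) : ∃ w : Lˣ, Nm K L w = d := by
  classical
  have hclo : IsAlgClosure L Ω := bca_clo K L Ω
  have hp0 : NeZero p := ⟨hp.ne_zero⟩
  have hf : Fact p.Prime := ⟨hp⟩
  obtain ⟨s, hs⟩ := kk_one_ex Ω hp hζ (kum_not_pow hp hζ H)
  obtain ⟨l, hlL, hl⟩ := h
  have hl' : ∀ σ τ : Gal(Ω/K), l (σ * τ) = l σ + l τ + kk p ζ c σ * kk p ζ d τ := hl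
  have hl1 : l 1 = 0 := by
    have h1 := hl' 1 1
    rw [mul_one, kk_one, zero_mul, add_zero] at h1
    exact left_eq_add.1 h1
  have hinv : ∀ (a : Kˣ) (σ : Gal(Ω/K)), kk p ζ a σ⁻¹ = -kk p ζ a σ := fun a σ => ck_inv (kk_mul a) σ
  -- the character of `Gal(Ω/L)`
  obtain ⟨U, hU⟩ : ∃ U : Subgroup Gal(Ω/K), ∀ σ, σ ∈ U ↔ kk p ζ c σ = 0 := by
    refine ⟨{ carrier := {σ | kk p ζ c σ = 0}
              mul_mem' := ?_
              one_mem' := kk_one c
              inv_mem' := ?_ }, fun σ => Iff.rfl⟩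
    · intro a b ha hb
      change kk p ζ c (a * b) = 0
      change kk p ζ c a = 0 at ha
      change kk p ζ c b = 0 at hb
      rw [kk_mul, ha, hb, add_zero]
    · intro a ha
      change kk p ζ c a⁻¹ = 0
      change kk p ζ c a = 0 at ha
      rw [hinv, ha, neg_zero]
  obtain ⟨χ, hχ⟩ : ∃ χ : U →* Multiplicative (ZMod p), ∀ u : U,
      Multiplicative.toAdd (χ u) = l (u : Gal(Ω/K)) := by
    refine ⟨{ toFun := fun u => Multiplicative.ofAdd (l (u : Gal(Ω/K)))
              map_one' := ?_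
              map_mul' := ?_ }, fun u => rfl⟩
    · change Multiplicative.ofAdd (l 1) = 1
      rw [hl1]
      rfl
    · intro a b
      change Multiplicative.ofAdd (l ((a : Gal(Ω/K)) * b)) = _
      rw [hl', (hU _).1 a.2, zero_mul, add_zero]
      rfl
  obtain ⟨E, hE, hE1⟩ := hlL
  obtain ⟨B, hB0, hB⟩ := kum_sub hp hζ U χ E (fun u hu => by
    have h1 := hE1 1 _ hu
    rw [one_mul, hl1, ← hχ] at h1
    exact Multiplicative.toAdd.injective h1)
  have hBl : ∀ γ, kk p ζ c γ = 0 → γ B = algebraMap K Ω ζ ^ (l γ).val * B := by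
    intro γ hγ
    have h1 := hB ⟨γ, (hU γ).2 hγ⟩
    rw [hχ] at h1
    exact h1
  -- the root of `d`
  obtain ⟨δ, hδ⟩ := gkum_root (K := K) (Ω := Ω) hp d
  have hδ0 : δ ≠ 0 := by
    intro h0
    rw [h0, zero_pow hp.ne_zero] at hδ
    exact d.ne_zero ((map_eq_zero (algebraMap K Ω)).1 hδ.symm)
  have hδσ := kk_root hp hζ d δ hδ
  have hz : algebraMap K Ω ζ ^ p = 1 := by rw [← map_pow, hζ.pow_eq_one, map_one]
  have hzv : ∀ a b : ZMod p, algebraMap K Ω ζ ^ (a + b).val =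
      algebraMap K Ω ζ ^ a.val * algebraMap K Ω ζ ^ b.val := by
    intro a b
    rw [← pow_add, ZMod.val_add, ← pow_eq_pow_mod _ hz]
  -- the conjugation
  have hconj : ∀ γ, kk p ζ c γ = 0 → kk p ζ c (s⁻¹ * γ * s) = 0 ∧ l (s⁻¹ * γ * s) = l γ - kk p ζ d γ := by
    intro γ hγ
    refine ⟨by rw [kk_mul, kk_mul, hinv, hγ]; ring, ?_⟩
    have h1 := hl' (s⁻¹ * γ) s
    have h2 := hl' s⁻¹ γ
    have h3 := hl' s⁻¹ s
    rw [inv_mul_cancel, hl1, hinv, hs] at h3
    rw [hinv, hs] at h2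
    rw [kk_mul, hinv, hγ, hs] at h1
    linear_combination h1 + h2 - h3
  have hw : ∀ γ : Gal(Ω/K), kk p ζ c γ = 0 → γ (s B * δ / B) = s B * δ / B := by
    intro γ hγ
    obtain ⟨h1, h2⟩ := hconj γ hγ
    have h3 : γ (s B) = algebraMap K Ω ζ ^ (l γ - kk p ζ d γ).val * s B := by
      have h4 : γ * s = s * (s⁻¹ * γ * s) := by group
      have h5 : γ (s B) = (γ * s) B := rfl
      rw [h5, h4, AlgEquiv.mul_apply, hBl _ h1, h2, map_mul, map_pow, AlgEquiv.commutes]
    have h6 : algebraMap K Ω ζ ^ (l γ - kk p ζ d γ).val * algebraMap K Ω ζ ^ (kk p ζ d γ).val =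
        algebraMap K Ω ζ ^ (l γ).val := by
      rw [← hzv, sub_add_cancel]
    have hz0 : algebraMap K Ω ζ ≠ 0 := by
      intro h0
      rw [h0, zero_pow hp.ne_zero] at hz
      exact zero_ne_one hz
    rw [map_div₀, map_mul, h3, hδσ, hBl γ hγ, ← h6]
    have hz1 : algebraMap K Ω ζ ^ (l γ - kk p ζ d γ).val ≠ 0 := pow_ne_zero _ hz0
    have hz2 : algebraMap K Ω ζ ^ (kk p ζ d γ).val ≠ 0 := pow_ne_zero _ hz0
    field_simp
  obtain ⟨w, hwΩ⟩ := gnorm_fixed (K := L) (s B * δ / B) (fun σ => by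
    have h1 := hw (rsK K L Ω σ) ((bca_range hp hζ H _).2 ⟨σ, rfl⟩)
    rwa [rsK_apply] at h1)
  have hsB0 : s B ≠ 0 := (map_ne_zero_iff s s.injective).2 hB0
  have hw0 : w ≠ 0 := by
    rintro rfl
    rw [map_zero] at hwΩ
    exact div_ne_zero (mul_ne_zero hsB0 hδ0) hB0 hwΩ.symm
  refine ⟨Units.mk0 w hw0, Units.ext ?_⟩
  apply (algebraMap K Ω).injective
  rw [nm_sp hp hζ H hs, Units.val_mk0, hwΩ]
  -- the product
  have hls : ∀ k : ℕ, l (s ^ k) = k * l s + (∑ i ∈ Finset.range k, (i : ZMod p)) * kk p ζ d s := by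
    intro k
    induction k with
    | zero => rw [pow_zero, hl1]; simp
    | succ k ih =>
      have hk : kk p ζ c (s ^ k) = k := by
        clear ih
        induction k with
        | zero => rw [pow_zero, kk_one, Nat.cast_zero]
        | succ k ih => rw [pow_succ, kk_mul, ih, hs, Nat.cast_succ]
      rw [pow_succ, hl', ih, hk, Finset.sum_range_succ, Nat.cast_succ]
      ring
  have hδs : ∀ k : ℕ, (s ^ k) δ = algebraMap K Ω ζ ^ ((k : ZMod p) * kk p ζ d s).val * δ := by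
    intro k
    rw [hδσ]
    have hk : kk p ζ d (s ^ k) = k * kk p ζ d s := by
      induction k with
      | zero => rw [pow_zero, kk_one, Nat.cast_zero, zero_mul]
      | succ k ih => rw [pow_succ, kk_mul, ih, Nat.cast_succ]; ring
    rw [hk]
  have hprod : ∀ k : ℕ, ∏ i ∈ Finset.range k, (s ^ i) (s B * δ / B) =
      (s ^ k) B / B * (algebraMap K Ω ζ ^ ((∑ i ∈ Finset.range k, (i : ZMod p)) * kk p ζ d s).val * δ ^ k) := by
    intro k
    induction k with
    | zero =>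
      rw [Finset.prod_range_zero, pow_zero, Finset.sum_range_zero, zero_mul, ZMod.val_zero, pow_zero, pow_zero,
        AlgEquiv.one_apply, div_self hB0, one_mul, one_mul]
    | succ k ih =>
      have hk0 : (s ^ k) B ≠ 0 := (map_ne_zero_iff (s ^ k) (s ^ k).injective).2 hB0
      have hk1 : (s ^ k) (s B) = (s ^ (k + 1)) B := by
        rw [pow_succ, AlgEquiv.mul_apply]
      rw [Finset.prod_range_succ, ih, map_div₀, map_mul, hk1, hδs, Finset.sum_range_succ, add_mul, hzv]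
      field_simp
      ring
  rw [hprod p]
  have hsp : kk p ζ c (s ^ p) = 0 := by
    have hk : ∀ k : ℕ, kk p ζ c (s ^ k) = k := by
      intro k
      induction k with
      | zero => rw [pow_zero, kk_one, Nat.cast_zero]
      | succ k ih => rw [pow_succ, kk_mul, ih, hs, Nat.cast_succ]
    rw [hk, ZMod.natCast_self]
  rw [hBl _ hsp, mul_div_assoc, div_self hB0, mul_one, hδ, ← mul_assoc, ← hzv, hls, ZMod.natCast_self, zero_mul,
    zero_add]
  have h2 : (∑ i ∈ Finset.range p, (i : ZMod p)) * kk p ζ d s +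
      (∑ i ∈ Finset.range p, (i : ZMod p)) * kk p ζ d s = 0 := by
    have h3 : (∑ i ∈ Finset.range p, (i : ZMod p)) * 2 = 0 := by
      have h4 := Finset.sum_range_id_mul_two p
      have h5 := congrArg (Nat.cast (R := ZMod p)) h4
      push_cast at h5
      rw [h5, ZMod.natCast_self, zero_mul]
    linear_combination (kk p ζ d s) * h3
  rw [h2, ZMod.val_zero, pow_zero, one_mul]

end H73.FF
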