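import Pool.Agent.H57.BRA.Bca
import Pool.Agent.H63.MA.KumA

/-!
# [H73 FF COR] (F) of MP_b39724 (all classes, stage 2), FG: corestriction of 2-cochains (complete)

`L = K(c^(1/p))` (`H : Kum p K ζ c L`), `V` a subgroup of `Gal(Ω/K)` with an element `s`, `kk c s = 1` (the place is nonsplit).
`cor_main`: if `res X + k (res a ∪ y)` is a coboundary on `V ∩ Gal(Ω/L)`, then `k (a ∪ N y)` is a coboundary on `V`
(`cor res X = p X = 0`, `cor (res a ∪ y) = a ∪ N y`). `tr_kk`: the transfer of the Kummer character of `y` is the Kummer character of `N y`.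

Abstract part (`G` a group, `κ : G → ZMod p` additive, `r : ZMod p → G` with `κ (r i) = - i`): `ck κ r i x = r i * x * (r (i - κ x))⁻¹` (in the kernel of `κ`),
`ctr`: the transfer of a function, `ccor`: the corestriction of a function of two variables.
-/

set_option autoImplicit false

open scoped NumberField
open IsDedekindDomain

noncomputable section

namespace H73.FF

open H63.MA H57.BRA

section abs

variable {p : ℕ} [NeZero p] {G : Type} [Group G] (κ : G → ZMod p) (r : ZMod p → G)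

/-- the element `r i x (r (i - κ x))⁻¹` -/
def ck (i : ZMod p) (x : G) : G := r i * x * (r (i - κ x))⁻¹

/-- the transfer -/
def ctr (b : G → ZMod p) (x : G) : ZMod p := ∑ i : ZMod p, b (ck κ r i x)

/-- the corestriction -/
def ccor (f : G → G → ZMod p) (x y : G) : ZMod p := ∑ i : ZMod p, f (ck κ r i x) (ck κ r (i - κ x) y)

variable {κ r} (hκ : ∀ x y, κ (x * y) = κ x + κ y) (hr : ∀ i, κ (r i) = -i)

include hκ

omit [NeZero p] in
theorem ck_one' : κ 1 = 0 := by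
  have h := hκ 1 1
  rw [mul_one] at h
  exact (left_eq_add.1 h)

omit [NeZero p] in
theorem ck_inv (x : G) : κ x⁻¹ = -κ x := by
  have h := hκ x x⁻¹
  rw [mul_inv_cancel, ck_one' hκ] at h
  exact (neg_eq_of_add_eq_zero_right h.symm).symm

omit [NeZero p] in
theorem ck_mul (i : ZMod p) (x y : G) :
    ck κ r i (x * y) = ck κ r i x * ck κ r (i - κ x) y := by
  have h : i - κ (x * y) = i - κ x - κ y := by rw [hκ]; ring
  unfold ck
  rw [h]
  group

include hr

omit [NeZero p] in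
theorem ck_ker (i : ZMod p) (x : G) : κ (ck κ r i x) = 0 := by
  unfold ck
  rw [hκ, hκ, ck_inv hκ, hr, hr]
  ring

omit hr hκ [Group G] in
theorem ctr_shift (f : ZMod p → ZMod p) (x : G) : ∑ i : ZMod p, f (i - κ x) = ∑ i : ZMod p, f i :=
  Equiv.sum_comp (Equiv.subRight (κ x)) f

/-- the corestriction of a cocycle is a cocycle -/
theorem ccor_co {V : Subgroup G} (hrV : ∀ i, r i ∈ V) {f : G → G → ZMod p}
    (hf : ∀ a ∈ V, κ a = 0 → ∀ b ∈ V, κ b = 0 → ∀ c ∈ V, κ c = 0 →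
      f b c + f a (b * c) = f (a * b) c + f a b) (x y z : G) (hx : x ∈ V) (hy : y ∈ V) (hz : z ∈ V) :
    ccor κ r f y z + ccor κ r f x (y * z) = ccor κ r f (x * y) z + ccor κ r f x y := by
  have hV : ∀ i, ∀ x ∈ V, ck κ r i x ∈ V := fun i x hx =>
    V.mul_mem (V.mul_mem (hrV i) hx) (V.inv_mem (hrV _))
  unfold ccor
  rw [← ctr_shift (κ := κ) (fun i => f (ck κ r i y) (ck κ r (i - κ y) z)) x, ← Finset.sum_add_distrib,
    ← Finset.sum_add_distrib]
  refine Finset.sum_congr rfl fun i _ => ?_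
  have h0 : i - κ (x * y) = i - κ x - κ y := by rw [hκ]; ring
  rw [ck_mul hκ, ck_mul hκ, h0]
  exact hf _ (hV i x hx) (ck_ker hκ hr i x) _ (hV _ y hy) (ck_ker hκ hr _ y) _ (hV _ z hz) (ck_ker hκ hr _ z)

omit hκ hr in
theorem ccor_add (f f' : G → G → ZMod p) (x y : G) :
    ccor κ r (fun g h => f g h + f' g h) x y = ccor κ r f x y + ccor κ r f' x y := by
  unfold ccor
  rw [← Finset.sum_add_distrib]

omit hκ hr in
theorem ccor_smul (k : ZMod p) (f : G → G → ZMod p) (x y : G) :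
    ccor κ r (fun g h => k * f g h) x y = k * ccor κ r f x y := by
  unfold ccor
  rw [← Finset.mul_sum]

/-- the corestriction of a coboundary -/
theorem ctr_cob {V : Subgroup G} (hrV : ∀ i, r i ∈ V) {l : G → ZMod p} {f : G → G → ZMod p}
    (hl : ∀ g ∈ V, κ g = 0 → ∀ h ∈ V, κ h = 0 → l (g * h) = l g + l h + f g h) (x y : G)
    (hx : x ∈ V) (hy : y ∈ V) :
    ctr κ r l (x * y) = ctr κ r l x + ctr κ r l y + ccor κ r f x y := by
  have hV : ∀ i, ∀ x ∈ V, ck κ r i x ∈ V := fun i x hx =>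
    V.mul_mem (V.mul_mem (hrV i) hx) (V.inv_mem (hrV _))
  unfold ctr ccor
  rw [← ctr_shift (κ := κ) (fun i => l (ck κ r i y)) x, ← Finset.sum_add_distrib, ← Finset.sum_add_distrib]
  refine Finset.sum_congr rfl fun i _ => ?_
  rw [ck_mul hκ]
  exact hl _ (hV i x hx) (ck_ker hκ hr i x) _ (hV _ y hy) (ck_ker hκ hr _ y)

omit hr in
/-- the corestriction of the restriction of a cocycle -/
theorem cor_res [Fact p.Prime] {F : G → G → ZMod p} (hF : ∀ a b c, F b c + F a (b * c) = F (a * b) c + F a b) (x y : G) :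
    ∑ i, (F (r i) (x * y) - F (ck κ r i (x * y)) (r (i - κ (x * y)))) =
      ∑ i, (F (r i) x - F (ck κ r i x) (r (i - κ x))) +
        ∑ i, (F (r i) y - F (ck κ r i y) (r (i - κ y))) + ccor κ r F x y := by
  have e : ∀ i, F (r i) (x * y) - F (ck κ r i (x * y)) (r (i - κ (x * y))) =
      (F (r i) x - F (ck κ r i x) (r (i - κ x))) +
        (F (r (i - κ x)) y - F (ck κ r (i - κ x) y) (r (i - κ x - κ y))) +
        F (ck κ r i x) (ck κ r (i - κ x) y) - F x y := by
    intro i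
    have h0 : i - κ (x * y) = i - κ x - κ y := by rw [hκ]; ring
    have h1 := hF (r i) x y
    have h2 := hF (ck κ r i x) (ck κ r (i - κ x) y) (r (i - κ x - κ y))
    have h3 := hF (ck κ r i x) (r (i - κ x)) y
    have h4 : ck κ r (i - κ x) y * r (i - κ x - κ y) = r (i - κ x) * y := by
      unfold ck
      group
    have h5 : ck κ r i x * r (i - κ x) = r i * x := by
      unfold ck
      group
    rw [h4] at h2
    rw [h5] at h3
    rw [ck_mul hκ, h0]
    linear_combination h1 + h2 - h3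
  have h6 := ctr_shift (κ := κ) (fun i => F (r i) y - F (ck κ r i y) (r (i - κ y))) x
  rw [Finset.sum_congr rfl fun i _ => e i, Finset.sum_sub_distrib, Finset.sum_add_distrib, Finset.sum_add_distrib,
    h6, Finset.sum_const, Finset.card_univ, ZMod.card, nsmul_eq_mul, CharP.cast_eq_zero, zero_mul, sub_zero]
  rfl

/-- the corestriction of a cup product -/
theorem cor_cup {a b : G → ZMod p} (ha : ∀ x y, a (x * y) = a x + a y)
    {V : Subgroup G} (hrV : ∀ i, r i ∈ V)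
    (hb : ∀ g ∈ V, κ g = 0 → ∀ h ∈ V, κ h = 0 → b (g * h) = b g + b h) (x y : G)
    (hx : x ∈ V) (hy : y ∈ V) :
    ccor κ r (fun g h => a g * b h) x y + ∑ i, a (r i) * b (ck κ r i x) + ∑ i, a (r i) * b (ck κ r i y) =
      a x * ctr κ r b y + ∑ i, a (r i) * b (ck κ r i (x * y)) := by
  have hV : ∀ i, ∀ x ∈ V, ck κ r i x ∈ V := fun i x hx =>
    V.mul_mem (V.mul_mem (hrV i) hx) (V.inv_mem (hrV _))
  have ha1 : ∀ i, a (ck κ r i x) = a (r i) + a x - a (r (i - κ x)) := by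
    intro i
    unfold ck
    have h := ha (r i * x * (r (i - κ x))⁻¹) (r (i - κ x))
    rw [inv_mul_cancel_right, ha] at h
    linear_combination -h
  have h1 := ctr_shift (κ := κ) (fun i => a (r i) * b (ck κ r i y)) x
  rw [← h1]
  unfold ccor ctr
  have h2 := ctr_shift (κ := κ) (fun i => b (ck κ r i y)) x
  rw [← h2, Finset.mul_sum, ← Finset.sum_add_distrib, ← Finset.sum_add_distrib, ← Finset.sum_add_distrib]
  refine Finset.sum_congr rfl fun i _ => ?_
  change a (ck κ r i x) * b (ck κ r (i - κ x) y) + a (r i) * b (ck κ r i x) +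
    a (r (i - κ x)) * b (ck κ r (i - κ x) y) = _
  rw [ck_mul hκ, hb _ (hV i x hx) (ck_ker hκ hr i x) _ (hV _ y hy) (ck_ker hκ hr _ y), ha1]
  ring

end abs

section lev

variable {K : Type} [Field K] [NumberField K] {Ω : Type} [Field Ω] [Algebra K Ω] [IsAlgClosure K Ω]

omit [NumberField K] [IsAlgClosure K Ω] in
private theorem cor_inl {E M : IntermediateField K Ω} (h : E ≤ M) {u : Gal(Ω/K)}
    (hu : u ∈ M.fixingSubgroup) : u ∈ E.fixingSubgroup := by
  rw [IntermediateField.mem_fixingSubgroup_iff] at hu ⊢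
  exact fun x hx => hu x (h hx)

/-- functions of finite level and transversals -/
theorem lev_ck {p : ℕ} {ζ : K} (hp : p.Prime) (hζ : IsPrimitiveRoot ζ p) (c : Kˣ) (r : ZMod p → Gal(Ω/K))
    (F : Gal(Ω/K) → Gal(Ω/K) → ZMod p)
    (hF : ∃ E : IntermediateField K Ω, FiniteDimensional K E ∧
      ∀ σ τ, ∀ u ∈ E.fixingSubgroup, F (σ * u) τ = F σ τ ∧ F σ (τ * u) = F σ τ) (i : ZMod p) :
    Lev (fun x => F (ck (kk p ζ c) r i x) (r (i - kk p ζ c x))) := by
  obtain ⟨E1, hE1, hX1⟩ := hF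
  obtain ⟨E3, hE3, hk1⟩ := gtriv_kk (Ω := Ω) hp hζ c
  have hf : FiniteDimensional K (E1 ⊔ E3 : IntermediateField K Ω) :=
    IntermediateField.finiteDimensional_sup E1 E3
  obtain ⟨M, hMf, hMn, hM, -⟩ := gtriv_field (E1 ⊔ E3) (fun _ => (0 : Ω)) fun _ _ _ => rfl
  refine ⟨M, hMf, fun σ u hu => ?_⟩
  have m1 : ∀ u ∈ M.fixingSubgroup, u ∈ E1.fixingSubgroup := fun u hu =>
    cor_inl (le_sup_left.trans hM) hu
  have m3 : ∀ u ∈ M.fixingSubgroup, u ∈ E3.fixingSubgroup := fun u hu =>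
    cor_inl (le_sup_right.trans hM) hu
  have hku : kk p ζ c (σ * u) = kk p ζ c σ := hk1 σ u (m3 u hu)
  have h1 : ck (kk p ζ c) r i (σ * u) = ck (kk p ζ c) r i σ *
      (r (i - kk p ζ c σ) * u * (r (i - kk p ζ c σ))⁻¹) := by
    unfold ck
    rw [hku]
    group
  have h2 : r (i - kk p ζ c σ) * u * (r (i - kk p ζ c σ))⁻¹ ∈ M.fixingSubgroup := by
    rw [← IntermediateField.restrictNormalHom_ker] at hu ⊢
    exact (MonoidHom.normal_ker (AlgEquiv.restrictNormalHom (F := K) (K₁ := Ω) M)).conj_mem u hu _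
  show F (ck (kk p ζ c) r i (σ * u)) (r (i - kk p ζ c (σ * u))) =
    F (ck (kk p ζ c) r i σ) (r (i - kk p ζ c σ))
  rw [hku, h1]
  exact (hX1 _ _ _ (m1 _ h2)).1

theorem lev_sum {p : ℕ} {I : Type} (S : Finset I) (f : I → Gal(Ω/K) → ZMod p) (hf : ∀ i ∈ S, Lev (f i)) :
    Lev (fun σ => ∑ i ∈ S, f i σ) := by
  classical
  induction S using Finset.induction_on with
  | empty =>
    have h : (fun σ : Gal(Ω/K) => ∑ i ∈ (∅ : Finset I), f i σ) = fun _ => (0 : ZMod p) := by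
      funext σ
      exact Finset.sum_empty
    rw [h]
    exact gtriv_const 0
  | insert i S hi ih =>
    have h : (fun σ : Gal(Ω/K) => ∑ j ∈ insert i S, f j σ) = fun σ => f i σ + ∑ j ∈ S, f j σ := by
      funext σ
      exact Finset.sum_insert hi
    rw [h]
    exact gtriv_lev (hf i (Finset.mem_insert_self i S))
      (ih fun j hj => hf j (Finset.mem_insert_of_mem hj)) (fun a b => a + b)

theorem lev_ctr {p : ℕ} {ζ : K} (hp : p.Prime) [NeZero p] (hζ : IsPrimitiveRoot ζ p) (c : Kˣ)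
    (r : ZMod p → Gal(Ω/K)) {l : Gal(Ω/K) → ZMod p} (hl : Lev l) (w : ZMod p → ZMod p) :
    Lev (fun x => ∑ i, w i * l (ck (kk p ζ c) r i x)) := by
  refine lev_sum _ _ fun i _ => ?_
  obtain ⟨E, hE, h⟩ := hl
  have h1 := lev_ck hp hζ c r (fun σ _ => l σ) ⟨E, hE, fun σ τ u hu => ⟨h σ u hu, rfl⟩⟩ i
  exact gtriv_lev h1 (gtriv_const (w i)) (fun a b => b * a)

end lev

section main

variable {K : Type} [Field K] [NumberField K] {L : Type} [Field L] [NumberField L] [Algebra K L]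
  {Ω : Type} [Field Ω] [Algebra K Ω] [Algebra L Ω] [IsScalarTower K L Ω] [IsAlgClosure K Ω]
  {p : ℕ} {ζ : K}

/-- the standard transversal: `(s ^ i)⁻¹` -/
def rr (p : ℕ) {G : Type} [Group G] (s : G) (i : ZMod p) : G := (s ^ i.val)⁻¹

theorem rr_kk [NeZero p] (c : Kˣ) {s : Gal(Ω/K)} (hs : kk p ζ c s = 1) (i : ZMod p) :
    kk p ζ c (rr p s i) = -i := by
  have hpow : ∀ k : ℕ, kk p ζ c (s ^ k) = k := by
    intro k
    induction k with
    | zero => rw [pow_zero, kk_one, Nat.cast_zero]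
    | succ k ih => rw [pow_succ, kk_mul, ih, hs, Nat.cast_succ]
  unfold rr
  rw [ck_inv (kk_mul c), hpow, ZMod.natCast_zmod_val]

/-- an element with `kk c s = 1` acts on `L` as the generator `H.σ` -/
theorem kum_sp (hp : p.Prime) (hζ : IsPrimitiveRoot ζ p) {c : Kˣ} (H : Kum p K ζ c L)
    {s : Gal(Ω/K)} (hs : kk p ζ c s = 1) (i : ℕ) (z : L) :
    (s ^ i) (algebraMap L Ω z) = algebraMap L Ω ((H.σ ^ i) z) := by
  have hp1 : Fact (1 < p) := ⟨hp.one_lt⟩
  have hB : (algebraMap L Ω (H.γ : L)) ^ p = algebraMap K Ω (c : K) := by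
    rw [← map_pow, H.hγ, ← IsScalarTower.algebraMap_apply K L Ω]
  have hsγ : s (algebraMap L Ω (H.γ : L)) = algebraMap L Ω (H.σ (H.γ : L)) := by
    rw [kk_root hp hζ c _ hB s, hs, ZMod.val_one, pow_one, H.hσ, map_mul,
      ← IsScalarTower.algebraMap_apply K L Ω]
  have hsL : ∀ z : L, s (algebraMap L Ω z) = algebraMap L Ω (H.σ z) := by
    have h1 : ((s : Ω →ₐ[K] Ω).comp (IsScalarTower.toAlgHom K L Ω)).equalizer
        ((IsScalarTower.toAlgHom K L Ω).comp (H.σ : L →ₐ[K] L)) = ⊤ := by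
      have hfd : FiniteDimensional K L := kuma_fd hp H
      have h2 := kuma_top hp hζ H (Subalgebra.toIntermediateField'
        (((s : Ω →ₐ[K] Ω).comp (IsScalarTower.toAlgHom K L Ω)).equalizer
          ((IsScalarTower.toAlgHom K L Ω).comp (H.σ : L →ₐ[K] L)))
        (Subalgebra.isField_of_algebraic _)) (by
          show s (algebraMap L Ω (H.γ : L)) = algebraMap L Ω (H.σ (H.γ : L))
          exact hsγ)
      rw [eq_top_iff]
      intro z _
      have h3 : z ∈ (⊤ : IntermediateField K L) := trivial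
      rw [← h2] at h3
      exact h3
    intro z
    have h3 : z ∈ ((s : Ω →ₐ[K] Ω).comp (IsScalarTower.toAlgHom K L Ω)).equalizer
        ((IsScalarTower.toAlgHom K L Ω).comp (H.σ : L →ₐ[K] L)) := by
      rw [h1]
      trivial
    exact h3
  induction i generalizing z with
  | zero => rfl
  | succ i ih => rw [pow_succ, pow_succ, AlgEquiv.mul_apply, AlgEquiv.mul_apply, hsL, ih]

/-- the norm as a product in `Ω` -/
theorem nm_sp (hp : p.Prime) (hζ : IsPrimitiveRoot ζ p) {c : Kˣ} (H : Kum p K ζ c L)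
    {s : Gal(Ω/K)} (hs : kk p ζ c s = 1) (y : Lˣ) :
    algebraMap K Ω ((Nm K L y : Kˣ) : K) = ∏ i ∈ Finset.range p, (s ^ i) (algebraMap L Ω (y : L)) := by
  have h1 : algebraMap L Ω ((inc K L (Nm K L y) : Lˣ) : L) =
      algebraMap L Ω ((∏ i ∈ Finset.range p, au (H.σ ^ i) y : Lˣ) : L) := by
    rw [kum_norm hp hζ H y]
  have h2 : algebraMap L Ω ((inc K L (Nm K L y) : Lˣ) : L) = algebraMap K Ω ((Nm K L y : Kˣ) : K) :=
    (IsScalarTower.algebraMap_apply K L Ω _).symm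
  rw [← h2, h1, Units.coe_prod, map_prod]
  refine Finset.prod_congr rfl fun i _ => ?_
  rw [kum_sp hp hζ H hs]
  rfl

/-- the transfer of the Kummer character of `y` is the Kummer character of the norm of `y` -/
theorem tr_kk (hp : p.Prime) [NeZero p] (hζ : IsPrimitiveRoot ζ p) {c : Kˣ} (H : Kum p K ζ c L)
    {s : Gal(Ω/K)} (hs : kk p ζ c s = 1) (y : Lˣ) (b : Gal(Ω/K) → ZMod p)
    (hb : ∀ σ : Gal(Ω/L), b (rsK K L Ω σ) = kk p (algebraMap K L ζ) y σ) (x : Gal(Ω/K)) :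
    ctr (kk p ζ c) (rr p s) b x = kk p ζ (Nm K L y) x := by
  have hclo : IsAlgClosure L Ω := bca_clo K L Ω
  have hζL : IsPrimitiveRoot (algebraMap K L ζ) p := hζ.map_of_injective (algebraMap K L).injective
  have hp1 : Fact (1 < p) := ⟨hp.one_lt⟩
  -- the root
  obtain ⟨B, hBy⟩ : ∃ B : Ω, B ^ p = algebraMap L Ω (y : L) := by
    have : IsAlgClosed Ω := IsAlgClosure.isAlgClosed K
    exact IsAlgClosed.exists_pow_nat_eq _ hp.pos
  obtain ⟨β, hβ⟩ : ∃ β : Ω, β = ∏ i : ZMod p, (s ^ i.val) B := ⟨_, rfl⟩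
  have hβp : β ^ p = algebraMap K Ω ((Nm K L y : Kˣ) : K) := by
    rw [nm_sp hp hζ H hs, hβ, ← Finset.prod_pow, ← Fin.prod_univ_eq_prod_range
      (fun i => (s ^ i) (algebraMap L Ω (y : L))) p]
    obtain ⟨q, rfl⟩ : ∃ q, p = q + 1 := ⟨p - 1, by have := hp.pos; omega⟩
    refine Finset.prod_congr rfl fun i _ => ?_
    rw [← map_pow, hBy]
    rfl
  have hkey : ∀ i : ZMod p, x ((s ^ (i - kk p ζ c x).val) B) =
      algebraMap K Ω ζ ^ (b (ck (kk p ζ c) (rr p s) i x)).val * (s ^ i.val) B := by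
    intro i
    have h1 : kk p ζ c (ck (kk p ζ c) (rr p s) i x) = 0 := ck_ker (kk_mul c) (rr_kk c hs) i x
    obtain ⟨σ', hσ'⟩ := (bca_range hp hζ H _).1 h1
    have h2 := kk_root hp hζL y B hBy σ'
    rw [← hb, hσ'] at h2
    have h3 : (ck (kk p ζ c) (rr p s) i x) B = σ' B := by
      rw [← hσ', rsK_apply]
    have h4 : x * s ^ (i - kk p ζ c x).val = s ^ i.val * ck (kk p ζ c) (rr p s) i x := by
      unfold ck rr
      group
    have h5 : x ((s ^ (i - kk p ζ c x).val) B) = (x * s ^ (i - kk p ζ c x).val) B := rfl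
    rw [h5, h4, AlgEquiv.mul_apply, h3, h2, map_mul, map_pow, ← IsScalarTower.algebraMap_apply K L Ω,
      AlgEquiv.commutes]
  have hx : x β = algebraMap K Ω ζ ^ (((∑ i : ZMod p, (b (ck (kk p ζ c) (rr p s) i x)).val : ℕ)) : ℤ) * β := by
    have h1 : β = ∏ i : ZMod p, (s ^ (i - kk p ζ c x).val) B := by
      rw [hβ]
      exact (Equiv.prod_comp (Equiv.subRight (kk p ζ c x)) (fun i : ZMod p => (s ^ i.val) B)).symm
    conv_lhs => rw [h1]
    rw [map_prod, Finset.prod_congr rfl fun i _ => hkey i, Finset.prod_mul_distrib, ← hβ,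
      Finset.prod_pow_eq_pow_sum, zpow_natCast]
  have h1 := kk_of_root hp hζ (Nm K L y) β hβp x _ hx
  rw [h1]
  unfold ctr
  push_cast
  refine Finset.sum_congr rfl fun i _ => ?_
  rw [ZMod.natCast_zmod_val]

/-- the corestriction: `k (a ∪ N y)` is trivial on `V` -/
theorem cor_main (hp : p.Prime) (hζ : IsPrimitiveRoot ζ p) {c : Kˣ} (H : Kum p K ζ c L)
    (V : Subgroup Gal(Ω/K)) {s : Gal(Ω/K)} (hsV : s ∈ V) (hs : kk p ζ c s = 1)
    {X : Gal(Ω/K) → Gal(Ω/K) → ZMod p} (hX : C2 X) (a : Kˣ) (y : Lˣ) (k : ZMod p)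
    (h : Kl (fun σ τ : Gal(Ω/L) => X (rsK K L Ω σ) (rsK K L Ω τ) +
      k * cu p (algebraMap K L ζ) (inc K L a) y σ τ) {σ | rsK K L Ω σ ∈ V}) :
    Kl (fun σ τ => k * cu p ζ a (Nm K L y) σ τ) (V : Set Gal(Ω/K)) := by
  have hclo : IsAlgClosure L Ω := bca_clo K L Ω
  have hf : Fact p.Prime := ⟨hp⟩
  have hp0 : NeZero p := ⟨hp.ne_zero⟩
  have hζL : IsPrimitiveRoot (algebraMap K L ζ) p := hζ.map_of_injective (algebraMap K L).injective
  obtain ⟨l', hl'L, hl'⟩ := h
  obtain ⟨l, hlL, hl⟩ := bca_lev' (K := K) hl'L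
  obtain ⟨b, hbL, hb⟩ := bca_lev' (K := K) (gtriv_kk (Ω := Ω) hp hζL y)
  have hrV : ∀ i, rr p s i ∈ V := fun i => V.inv_mem (V.pow_mem hsV _)
  have hκ := kk_mul (p := p) (ζ := ζ) (Ω := Ω) c
  have hr := rr_kk (p := p) (ζ := ζ) c hs
  -- relations on the kernel
  have hbm : ∀ g ∈ V, kk p ζ c g = 0 → ∀ h ∈ V, kk p ζ c h = 0 → b (g * h) = b g + b h := by
    intro g _ hg0 h _ hh0
    obtain ⟨g', rfl⟩ := (bca_range hp hζ H g).1 hg0
    obtain ⟨h', rfl⟩ := (bca_range hp hζ H h).1 hh0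
    rw [← map_mul, hb, hb, hb, kk_mul]
  have hlm : ∀ g ∈ V, kk p ζ c g = 0 → ∀ h ∈ V, kk p ζ c h = 0 →
      l (g * h) = l g + l h + (X g h + k * (kk p ζ a g * b h)) := by
    intro g hg hg0 h hh hh0
    obtain ⟨g', rfl⟩ := (bca_range hp hζ H g).1 hg0
    obtain ⟨h', rfl⟩ := (bca_range hp hζ H h).1 hh0
    rw [← map_mul, hl, hl, hl, hl' g' hg h' hh, hb, ← bca_kk hp hζ]
    rfl
  obtain ⟨A, hA⟩ : ∃ A : Gal(Ω/K) → ZMod p, A = fun x =>
    ∑ i, (X (rr p s i) x - X (ck (kk p ζ c) (rr p s) i x) (rr p s (i - kk p ζ c x))) := ⟨_, rfl⟩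
  obtain ⟨A', hA'⟩ : ∃ A' : Gal(Ω/K) → ZMod p, A' = fun x =>
    ∑ i, kk p ζ a (rr p s i) * b (ck (kk p ζ c) (rr p s) i x) := ⟨_, rfl⟩
  obtain ⟨T, hT⟩ : ∃ T : Gal(Ω/K) → ZMod p, T = ctr (kk p ζ c) (rr p s) l := ⟨_, rfl⟩
  have hAL : Lev A := by
    rw [hA]
    refine lev_sum _ _ fun i _ => ?_
    obtain ⟨E, hE, hXE⟩ := hX.lev
    exact gtriv_lev (f := fun x => X (rr p s i) x) ⟨E, hE, fun σ u hu => (hXE _ σ u hu).2⟩
      (lev_ck hp hζ c (rr p s) X hX.lev i) (fun a b => a - b)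
  have hA'L : Lev A' := by
    rw [hA']
    exact lev_ctr hp hζ c (rr p s) hbL fun i => kk p ζ a (rr p s i)
  have hTL : Lev T := by
    rw [hT]
    have h1 := lev_ctr hp hζ c (rr p s) hlL fun _ => 1
    have h2 : (fun x => ∑ i, 1 * l (ck (kk p ζ c) (rr p s) i x)) = ctr (kk p ζ c) (rr p s) l := by
      funext x
      unfold ctr
      exact Finset.sum_congr rfl fun i _ => one_mul _
    rwa [h2] at h1
  refine ⟨fun x => T x - A x - k * A' x, ?_, ?_⟩
  · exact gtriv_lev (gtriv_lev hTL hAL (fun a b => a - b)) hA'L (fun a b => a - k * b)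
  · intro x hx y' hy'
    have h1 := ctr_cob hκ hr hrV hlm x y' hx hy'
    have h2 := cor_res (r := rr p s) hκ (F := X) hX.co x y'
    have h3 := cor_cup hκ hr (a := kk p ζ a) (b := b) (kk_mul a) hrV hbm x y' hx hy'
    rw [tr_kk hp hζ H hs y b hb] at h3
    have h4 : ccor (kk p ζ c) (rr p s) (fun g h => X g h + k * (kk p ζ a g * b h)) x y' =
        ccor (kk p ζ c) (rr p s) X x y' +
          k * ccor (kk p ζ c) (rr p s) (fun g h => kk p ζ a g * b h) x y' := by
      unfold ccor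
      rw [Finset.mul_sum, ← Finset.sum_add_distrib]
    rw [h4, ← hT] at h1
    have h5 : ∀ z, (∑ i, (X (rr p s i) z - X (ck (kk p ζ c) (rr p s) i z) (rr p s (i - kk p ζ c z)))) = A z := by
      intro z
      rw [hA]
    have h6 : ∀ z, (∑ i, kk p ζ a (rr p s i) * b (ck (kk p ζ c) (rr p s) i z)) = A' z := by
      intro z
      rw [hA']
    rw [h5, h5, h5] at h2
    rw [h6, h6, h6] at h3
    show T (x * y') - A (x * y') - k * A' (x * y') =
      T x - A x - k * A' x + (T y' - A y' - k * A' y') + k * (kk p ζ a x * kk p ζ (Nm K L y) y')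
    rw [h1, h2]
    linear_combination k * h3

end main

end H73.FF
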